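import Mathlib
import Pool.Agent.H469R10.HO.Stmts3
import Pool.Agent.H469R10.HO.Stmts6

/-!
# Tasks for MP_995735_nt (poles at `s = 1` of Selberg class functions)
-/

set_option autoImplicit false

open Finset

namespace Pool.Agent.H902R3.PZ

open Pool.Agent.H469R10.HO

/-- inhomogeneous term; antisymmetric: `x ^ (2 * m) * RR m C L x⁻¹ = - RR m C L x` for `0 < x` -/
noncomputable def RR (m : ℕ) (C L x : ℝ) : ℝ := C * x ^ m * Real.sin (L * Real.log x)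

/-- `th x + th x⁻¹ = 1` for `0 < x`, `th x = 1` for `0 < x ≤ 3/4`, `th x = 0` for `4/3 ≤ x` -/
noncomputable def th (x : ℝ) : ℝ := Real.smoothTransition (1 / 2 - Real.log x / (2 * Real.log (4 / 3)))

/-- the extra source -/
noncomputable def rr (m : ℕ) (C L x : ℝ) : ℝ := th x * RR m C L x

/-- TASK N': size of the extra source. -/
def TaskN' : Prop := ∀ (m : ℕ) (L : ℝ), 2 ≤ m → ∃ K : ℝ, 0 < K ∧ ∀ c : ℝ, 0 < c → c ≤ 1 → ∀ (C : ℝ) (J : ℕ),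
  ∑ j ∈ range J, WW c j * (PP (rr m C L) j) ^ 2 ≤ K * C ^ 2 / c

/-- TASK O': a fixed point with the extra source gives the inhomogeneous boundary relation. -/
def TaskO' : Prop := ∀ (c lam : ℝ) (m : ℕ) (B : ℕ → Finset ℕ) (b : ℕ → ℝ) (C L : ℝ), 0 < c → 1 ≤ lam → 2 ≤ m →
  (∀ j, ∀ p ∈ B j, 1 ≤ j ∧ p.Prime ∧ |uu c lam p - xx j| ≤ 1 / 2) → (∀ j, 1 ≤ j → (B j).Nonempty) →
  Summable (fun n => |alp c lam B b n|) →
  (∀ j, b j = (ss c m j + PP (rr m C L) j) + ∑' n, alp c lam B b n * TT c lam m n j) →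
  ∀ α : ℕ → ℝ, (∀ n, α n = if n = 0 then b 0 - 1 else if Squarefree n then ∏ p ∈ n.primeFactors, bet c lam B b p else 0) →
  ∀ x : ℝ, 0 < x → ∑' n, α n * Real.cos (uu c lam n * x) =
    x ^ (2 * m) * ∑' n, α n * Real.cos (uu c lam n / x) + RR m C L x

/-- the constant of the polar term -/
noncomputable def AA (m : ℕ) (L : ℝ) : ℝ := 2 * (2 * m + 1).factorial / Real.pi *
  ∫ y in Set.Ioi (0 : ℝ), y ^ m * Real.cos (L * Real.log y) * (1 / (1 + (y : ℂ) * Complex.I) ^ (2 * m + 2)).re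

/-- TASK G1: from the inhomogeneous boundary relation to the theta relation. -/
def TaskG1 : Prop := ∀ (m : ℕ), Odd m → ∀ (α u : ℕ → ℝ), Summable (fun n => |α n|) → u 0 = 0 → (∀ n, 1 ≤ n → 0 < u n) →
  ∀ C L : ℝ,
  (∀ x : ℝ, 0 < x → ∑' n, α n * Real.cos (u n * x) = x ^ (2 * m) * ∑' n, α n * Real.cos (u n / x) + RR m C L x) →
  ∀ t : ℝ, 0 < t → ∑' n, α n * u n ^ (2 * m + 1) * Real.exp (-(u n / t)) =
    t ^ (2 * m + 2) * ∑' n, α n * u n ^ (2 * m + 1) * Real.exp (-(u n * t)) -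
      C * AA m L * t ^ (m + 1) * Real.sin (L * Real.log t)

/-- TASK G2: the constant does not vanish. -/
def TaskG2 : Prop := ∀ (m : ℕ) (L : ℝ), Odd m → AA m L ≠ 0

/-- TASK F': Mellin transform of the inhomogeneous theta relation. -/
def TaskF' : Prop := ∀ (c lam : ℝ) (m : ℕ), 0 < c → 1 ≤ lam → 1 ≤ m → ∀ L c₁ : ℝ, 0 < L → ∀ (A : ℕ → ℝ), A 0 = 0 →
  Summable (fun n => |A n| * (uu c lam n) ^ (-(2 * (m : ℝ) + 1))) →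
  (∀ t : ℝ, 0 < t → ∑' n, A n * Real.exp (-(uu c lam n / t)) =
    t ^ (2 * m + 2) * ∑' n, A n * Real.exp (-(uu c lam n * t)) - c₁ * t ^ (m + 1) * Real.sin (L * Real.log t)) →
  ∃ Λ : ℂ → ℂ, Differentiable ℂ Λ ∧ (∀ z : ℂ, Λ (2 * m + 2 - z) = Λ z) ∧
    (∀ z : ℂ, Λ ((starRingEnd ℂ) z) = (starRingEnd ℂ) (Λ z)) ∧
    (∀ z : ℂ, 2 * (m : ℝ) + 2 < z.re → HasSum (fun n : ℕ => if n = 0 then 0 else (A n : ℂ) * ((uu c lam n : ℝ) : ℂ) ^ (-z))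
      ((Λ z - (c₁ * L : ℝ) / ((z - (m + 1)) ^ 2 + (L : ℂ) ^ 2)) * (Complex.Gamma z)⁻¹)) ∧
    ∃ C : ℝ, ∀ z : ℂ, ‖Λ z‖ ≤ Real.exp (C * (1 + ‖z‖) ^ 2)

/-- TASK Z: `(s - 1) ζ(s)` is entire of finite order, and divisible by `(s - ρ)(s - conj ρ)` at a zero of zeta. -/
def TaskZ : Prop := ∀ γ : ℝ, 0 < γ → riemannZeta (1 / 2 + γ * Complex.I) = 0 →
  ∃ Z Y : ℂ → ℂ, Differentiable ℂ Z ∧ Differentiable ℂ Y ∧ (∀ s : ℂ, s ≠ 1 → Z s = (s - 1) * riemannZeta s) ∧ Z 1 = 1 ∧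
    (∀ s : ℂ, Z s = ((s - 1 / 2) ^ 2 + (γ : ℂ) ^ 2) * Y s) ∧
    (∃ C : ℝ, ∀ s : ℂ, ‖Z s‖ ≤ Real.exp (C * (1 + ‖s‖) ^ 2)) ∧ (∃ C : ℝ, ∀ s : ℂ, ‖Y s‖ ≤ Real.exp (C * (1 + ‖s‖) ^ 2))

/-- TASK E: zeta has a zero on the critical line. -/
def TaskE : Prop := ∃ γ : ℝ, 0 < γ ∧ riemannZeta (1 / 2 + γ * Complex.I) = 0

/-- CORE with a polar term. -/
def CoreP : Prop := ∀ γ : ℝ, 0 < γ → ∃ (m : ℕ) (c C : ℝ) (β α : ℕ → ℝ), Odd m ∧ 0 < c ∧ 0 < C ∧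
  (∀ p : ℕ, p.Prime → |β p| ≤ (p : ℝ) ^ (-(1 / 2 + m / lamOf m))) ∧
  (∀ n : ℕ, 1 ≤ n → α n = if Squarefree n then ∏ p ∈ n.primeFactors, β p else 0) ∧
  Summable (fun n => |α n|) ∧
  (∀ x : ℝ, 0 < x → ∑' n, α n * Real.cos (uu c (lamOf m) n * x) =
      x ^ (2 * m) * ∑' n, α n * Real.cos (uu c (lamOf m) n / x) + RR m C (lamOf m * γ) x)

end Pool.Agent.H902R3.PZ
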