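import Pool.Agent.H902R3.PZ.W3
import Pool.Agent.H902R3.PZ.CoreP
import Pool.Agent.H902R3.PZ.TaskE
import Pool.Agent.H469R10.HO.Final
import Pool.Agent.H82R3.TaskPZG1
import Pool.Agent.H600R3.TaskPZG2
import Pool.Agent.H886R3.TaskPZF
import Pool.Agent.H486R3.TaskPZZ

set_option autoImplicit false

/-!
# Existence of the data
-/

namespace Pool.Agent.H902R3.PZ

open Finset Pool.Agent.H469R10.HO Pool.Agent.H902R3.I469

/-- a zero of zeta on the critical line gives the data -/
theorem exists_dat {γ : ℝ} (hγ : 0 < γ) (hz : riemannZeta (1 / 2 + γ * Complex.I) = 0) :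
    ∃ D : Dat, D.γ = γ := by
  obtain ⟨m, c, C, β, α, hodd, hc, hC, hβ, hα, hsum, hrel⟩ := coreP hoheisel γ hγ
  have hm : 1 ≤ m := hodd.pos
  have hl := lam_pos m
  have hl1 := lam_ge m
  have hL : 0 < lamOf m * γ := mul_pos hl hγ
  have hrel2 := Pool.Agent.H82R3.PZG1.taskG1 m hodd α (uu c (lamOf m)) hsum (uu_zero hl)
    (fun n hn => uu_pos hc hn) C (lamOf m * γ) hrel
  obtain ⟨Λ, hΛd, hΛfe, hΛc, hΛs, hΛg⟩ := Pool.Agent.H886R3.PZF.taskF' c (lamOf m) m hc (by linarith) hm
    (lamOf m * γ) (C * AA m (lamOf m * γ)) hL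
    (fun n => α n * uu c (lamOf m) n ^ (2 * m + 1))
    (by rw [uu_zero hl]; simp)
    (by
      refine Summable.of_nonneg_of_le (fun n => by
        apply mul_nonneg (abs_nonneg _)
        apply Real.rpow_nonneg
        rcases Nat.eq_zero_or_pos n with h | h
        · rw [h, uu_zero hl]
        · exact (uu_pos hc h).le) (fun n => ?_) hsum
      rcases Nat.eq_zero_or_pos n with h | h
      · subst h
        rw [uu_zero hl]
        simp
      · have hu := uu_pos (lam := lamOf m) hc h
        rw [abs_mul, abs_of_pos (pow_pos hu _), mul_assoc, ← Real.rpow_natCast,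
          ← Real.rpow_add hu]
        have : ((2 * m + 1 : ℕ) : ℝ) + -(2 * (m : ℝ) + 1) = 0 := by push_cast; ring
        rw [this, Real.rpow_zero, mul_one])
    (by
      intro t ht
      exact hrel2 t ht)
  obtain ⟨Z, Y, hZd, hYd, hZ, hZ1, hZY, hZg, hYg⟩ := Pool.Agent.H486R3.PZZ.taskZ γ hγ hz
  refine ⟨
    { m := m
      c := c
      γ := γ
      c₁ := C * AA m (lamOf m * γ)
      β := β
      α := α
      Λ := Λ
      Z := Z
      Y := Y
      hc := hc
      hγ := hγ
      hz := hz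
      hc₁ := mul_ne_zero hC.ne' (Pool.Agent.H600R3.PZG2.taskG2 m _ hodd)
      hβ := hβ
      hα := hα
      hsum := hsum
      hΛd := hΛd
      hΛfe := hΛfe
      hΛc := hΛc
      hΛs := hΛs
      hΛg := hΛg
      hZd := hZd
      hYd := hYd
      hZ := hZ
      hZ1 := hZ1
      hZY := hZY
      hZg := hZg
      hYg := hYg }, rfl⟩

end Pool.Agent.H902R3.PZ
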