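import Pool.Agent.H902R3.PZ.Stmts
import Pool.Agent.H902R3.Task469I
import Pool.Agent.H510R2.Div

set_option autoImplicit false

/-!
# Wrapper, part 1: coefficients and Euler product of `ζ · H`
-/

namespace Pool.Agent.H902R3.PZ

open Finset Pool.Agent.H469R10.HO Pool.Agent.H902R3.I469
open scoped ArithmeticFunction.vonMangoldt

/-- coefficients of `ζ · H` -/
noncomputable def aa (m : ℕ) (β : ℕ → ℝ) : ℕ → ℂ := LSeries.convolution (1 : ℕ → ℂ) (ff m β)

/-- logarithm coefficients of `H`, supported on prime powers -/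
noncomputable def bH (m : ℕ) (β : ℕ → ℝ) (n : ℕ) : ℂ := by
  classical exact if IsPrimePow n then bb m β n else 0

/-- logarithm coefficients of `ζ · H` -/
noncomputable def bF (m : ℕ) (β : ℕ → ℝ) (n : ℕ) : ℂ := (Λ n : ℂ) / (Real.log n : ℂ) + bH m β n

variable {m : ℕ} {β : ℕ → ℝ}

theorem norm_ff_le (hβ : ∀ p : ℕ, p.Prime → |β p| ≤ (p : ℝ) ^ (-(1 / 2 + m / lamOf m))) (n : ℕ) :
    ‖ff m β n‖ ≤ 1 := by
  unfold ff
  rw [Complex.norm_real, Real.norm_eq_abs]
  exact abs_fr_le hβ n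

theorem ff_one : ff m β 1 = 1 := by
  unfold ff
  rw [fr_one]
  simp

theorem aa_one : aa m β 1 = 1 := by
  unfold aa
  rw [LSeries.convolution_def]
  simp [ff_one]

theorem norm_aa_le (hβ : ∀ p : ℕ, p.Prime → |β p| ≤ (p : ℝ) ^ (-(1 / 2 + m / lamOf m))) (n : ℕ) :
    ‖aa m β n‖ ≤ n.divisors.card := by
  unfold aa
  rw [LSeries.convolution_def]
  refine (norm_sum_le _ _).trans ?_
  calc ∑ p ∈ n.divisorsAntidiagonal, ‖(1 : ℕ → ℂ) p.1 * ff m β p.2‖
      ≤ ∑ _p ∈ n.divisorsAntidiagonal, (1 : ℝ) := by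
        apply Finset.sum_le_sum
        intro p _
        simp only [Pi.one_apply, one_mul]
        exact norm_ff_le hβ p.2
    _ = n.divisors.card := by
        rw [Finset.sum_const, nsmul_eq_mul, mul_one]
        congr 1
        rw [← Nat.map_div_right_divisors, Finset.card_map]

theorem aa_ramanujan (hβ : ∀ p : ℕ, p.Prime → |β p| ≤ (p : ℝ) ^ (-(1 / 2 + m / lamOf m)))
    (ε : ℝ) (hε : 0 < ε) : ∃ C : ℝ, ∀ n : ℕ, 1 ≤ n → ‖aa m β n‖ ≤ C * (n : ℝ) ^ ε := by
  obtain ⟨C, _, hC⟩ := Pool.Agent.H510R2.divisor_bound ε hε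
  exact ⟨C, fun n hn => (norm_aa_le hβ n).trans (hC n hn)⟩

theorem summable_one {s : ℂ} (hs : 1 < s.re) : LSeriesSummable (1 : ℕ → ℂ) s :=
  LSeriesSummable_of_bounded_of_one_lt_re (m := 1) (fun n _ => by simp) hs

theorem summable_aa (hβ : ∀ p : ℕ, p.Prime → |β p| ≤ (p : ℝ) ^ (-(1 / 2 + m / lamOf m)))
    {s : ℂ} (hs : 1 < s.re) : LSeriesSummable (aa m β) s :=
  (summable_one hs).convolution (summable_term hβ hs)

theorem LSeries_aa (hβ : ∀ p : ℕ, p.Prime → |β p| ≤ (p : ℝ) ^ (-(1 / 2 + m / lamOf m)))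
    {s : ℂ} (hs : 1 < s.re) : LSeries (aa m β) s = riemannZeta s * LSeries (ff m β) s := by
  unfold aa
  rw [LSeries_convolution' (summable_one hs) (summable_term hβ hs), LSeries_one_eq_riemannZeta hs]

theorem norm_bH_le (hβ : ∀ p : ℕ, p.Prime → |β p| ≤ (p : ℝ) ^ (-(1 / 2 + m / lamOf m))) (n : ℕ) :
    ‖bH m β n‖ ≤ 1 := by
  unfold bH
  split_ifs with h
  · obtain ⟨p, k, hp, hk, rfl⟩ := (isPrimePow_nat_iff n).1 h
    exact norm_bb_le hβ hp hk
  · simp

theorem norm_L_le (n : ℕ) : ‖(Λ n : ℂ) / (Real.log n : ℂ)‖ ≤ 1 := by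
  rw [norm_div, Complex.norm_real, Complex.norm_real, Real.norm_of_nonneg ArithmeticFunction.vonMangoldt_nonneg,
    Real.norm_of_nonneg (Real.log_natCast_nonneg n)]
  exact div_le_one_of_le₀ ArithmeticFunction.vonMangoldt_le_log (Real.log_natCast_nonneg n)

theorem norm_bF_le (hβ : ∀ p : ℕ, p.Prime → |β p| ≤ (p : ℝ) ^ (-(1 / 2 + m / lamOf m))) (n : ℕ) :
    ‖bF m β n‖ ≤ 2 := by
  unfold bF
  refine (norm_add_le _ _).trans ?_
  linarith [norm_L_le n, norm_bH_le hβ n]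

theorem bF_eq_zero {n : ℕ} (h : ¬ IsPrimePow n) : bF m β n = 0 := by
  unfold bF bH
  rw [if_neg h, ArithmeticFunction.vonMangoldt_eq_zero_iff.2 h]
  simp

theorem summable_bH (hβ : ∀ p : ℕ, p.Prime → |β p| ≤ (p : ℝ) ^ (-(1 / 2 + m / lamOf m)))
    {s : ℂ} (hs : 1 < s.re) : LSeriesSummable (bH m β) s :=
  LSeriesSummable_of_bounded_of_one_lt_re (m := 1) (fun n _ => norm_bH_le hβ n) hs

theorem summable_bF (hβ : ∀ p : ℕ, p.Prime → |β p| ≤ (p : ℝ) ^ (-(1 / 2 + m / lamOf m)))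
    {s : ℂ} (hs : 1 < s.re) : LSeriesSummable (bF m β) s :=
  LSeriesSummable_of_bounded_of_one_lt_re (m := 2) (fun n _ => norm_bF_le hβ n) hs

theorem exp_bH (hβ : ∀ p : ℕ, p.Prime → |β p| ≤ (p : ℝ) ^ (-(1 / 2 + m / lamOf m)))
    {s : ℂ} (hs : 1 < s.re) : Complex.exp (LSeries (bH m β) s) = LSeries (ff m β) s := by
  have hsum := summable_bH hβ hs
  set g : ℕ → ℂ := LSeries.term (bH m β) s with hg
  have hsup : Function.support g ⊆ {n | IsPrimePow n} := by
    intro n hn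
    by_contra h
    apply hn
    rw [hg]
    rcases Nat.eq_zero_or_pos n with h0 | h0
    · subst h0; exact LSeries.term_zero _ _
    · rw [LSeries.term_of_ne_zero h0.ne']
      unfold bH
      rw [if_neg (by exact h)]
      simp
  have h1 : LSeries (bH m β) s = ∑' (p : Nat.Primes) (k : ℕ), g (p ^ (k + 1)) :=
    tsum_eq_tsum_primes_of_support_subset_prime_powers hsum hsup
  have hs2 : Summable fun pk : Nat.Primes × ℕ => g (pk.1 ^ (pk.2 + 1)) := by
    have := hsum.comp_injective (i := fun x : Nat.Primes × ℕ => ((Nat.Primes.prodNatEquiv x : {n : ℕ // IsPrimePow n}) : ℕ))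
      (Subtype.val_injective.comp Nat.Primes.prodNatEquiv.injective)
    refine this.congr fun x => ?_
    simp
    rfl
  have h2 : HasSum (fun p : Nat.Primes => ∑' k : ℕ, g (p ^ (k + 1))) (LSeries (bH m β) s) := by
    rw [h1]
    exact hs2.prod.hasSum
  have h3 := h2.cexp
  refine h3.unique ?_
  convert euler hβ hs using 1
  funext p
  simp only [Function.comp]
  congr 1
  apply tsum_congr
  intro k
  have hp := p.2
  rw [hg, LSeries.term_of_ne_zero (pow_ne_zero _ hp.ne_zero)]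
  unfold bH
  rw [if_pos (hp.isPrimePow.pow (by omega)), div_eq_mul_inv, ← Complex.cpow_neg]
  congr 1
  push_cast
  rw [← Complex.natCast_cpow_natCast_mul]
  congr 1
  push_cast
  ring

theorem exp_bF (hβ : ∀ p : ℕ, p.Prime → |β p| ≤ (p : ℝ) ^ (-(1 / 2 + m / lamOf m)))
    {s : ℂ} (hs : 1 < s.re) : Complex.exp (LSeries (bF m β) s) = LSeries (aa m β) s := by
  have h1 : bF m β = (fun n : ℕ => (Λ n : ℂ) / (Real.log n : ℂ)) + bH m β := rfl
  have h2 : LSeriesSummable (fun n : ℕ => (Λ n : ℂ) / (Real.log n : ℂ)) s :=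
    LSeriesSummable_of_bounded_of_one_lt_re (m := 1) (fun n _ => norm_L_le n) hs
  rw [h1, LSeries_add h2 (summable_bH hβ hs), Complex.exp_add, exp_bH hβ hs, LSeries_aa hβ hs]
  congr 1
  exact riemannZeta_eq_exp_LSeries hs

end Pool.Agent.H902R3.PZ
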