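import Pool.Agent.H902R3.PZ.W1

set_option autoImplicit false

/-!
# Wrapper, part 2: analytic properties of `ζ · H`
-/

namespace Pool.Agent.H902R3.PZ

open Finset Pool.Agent.H469R10.HO Pool.Agent.H902R3.I469

/-- everything needed -/
structure Dat where
  m : ℕ
  c : ℝ
  γ : ℝ
  c₁ : ℝ
  β : ℕ → ℝ
  α : ℕ → ℝ
  Λ : ℂ → ℂ
  Z : ℂ → ℂ
  Y : ℂ → ℂ
  hc : 0 < c
  hγ : 0 < γ
  hz : riemannZeta (1 / 2 + γ * Complex.I) = 0
  hc₁ : c₁ ≠ 0
  hβ : ∀ p : ℕ, p.Prime → |β p| ≤ (p : ℝ) ^ (-(1 / 2 + m / lamOf m))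
  hα : ∀ n : ℕ, 1 ≤ n → α n = if Squarefree n then ∏ p ∈ n.primeFactors, β p else 0
  hsum : Summable (fun n => |α n|)
  hΛd : Differentiable ℂ Λ
  hΛfe : ∀ z : ℂ, Λ (2 * m + 2 - z) = Λ z
  hΛc : ∀ z : ℂ, Λ ((starRingEnd ℂ) z) = (starRingEnd ℂ) (Λ z)
  hΛs : ∀ z : ℂ, 2 * (m : ℝ) + 2 < z.re →
    HasSum (fun n : ℕ => if n = 0 then 0 else ((α n * uu c (lamOf m) n ^ (2 * m + 1) : ℝ) : ℂ) *
      ((uu c (lamOf m) n : ℝ) : ℂ) ^ (-z))
      ((Λ z - (c₁ * (lamOf m * γ) : ℝ) / ((z - (m + 1)) ^ 2 + ((lamOf m * γ : ℝ) : ℂ) ^ 2)) *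
        (Complex.Gamma z)⁻¹)
  hΛg : ∃ C : ℝ, ∀ z : ℂ, ‖Λ z‖ ≤ Real.exp (C * (1 + ‖z‖) ^ 2)
  hZd : Differentiable ℂ Z
  hYd : Differentiable ℂ Y
  hZ : ∀ s : ℂ, s ≠ 1 → Z s = (s - 1) * riemannZeta s
  hZ1 : Z 1 = 1
  hZY : ∀ s : ℂ, Z s = ((s - 1 / 2) ^ 2 + (γ : ℂ) ^ 2) * Y s
  hZg : ∃ C : ℝ, ∀ s : ℂ, ‖Z s‖ ≤ Real.exp (C * (1 + ‖s‖) ^ 2)
  hYg : ∃ C : ℝ, ∀ s : ℂ, ‖Y s‖ ≤ Real.exp (C * (1 + ‖s‖) ^ 2)

namespace Dat

variable (D : Dat)

/-- the degree parameter -/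
noncomputable def lam : ℝ := lamOf D.m

/-- `(s - ρ) (s - conj ρ)` -/
noncomputable def dd (s : ℂ) : ℂ := (s - 1 / 2) ^ 2 + (D.γ : ℂ) ^ 2

/-- change of variables -/
noncomputable def zz (s : ℂ) : ℂ := (D.lam : ℂ) * s + 1 / 6

/-- residue constant -/
noncomputable def kk : ℝ := D.c₁ * (D.lam * D.γ) / D.lam ^ 2

/-- elementary factor -/
noncomputable def E (s : ℂ) : ℂ :=
  Complex.exp ((Real.log D.c : ℂ) * (D.zz s - 2 * D.m - 1)) * (Complex.Gamma (D.zz s))⁻¹

/-- numerator -/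
noncomputable def N (s : ℂ) : ℂ := D.Z s * D.Λ (D.zz s) - (D.kk : ℂ) * D.Y s

/-- `(s - 1) F(s)` -/
noncomputable def G (s : ℂ) : ℂ := D.E s * D.N s

/-- the element of the Selberg class -/
noncomputable def F (s : ℂ) : ℂ := D.G s / (s - 1)

/-- the meromorphic completed function of `H` -/
noncomputable def Λ' (z : ℂ) : ℂ :=
  D.Λ z - (D.c₁ * (D.lam * D.γ) : ℝ) / ((z - (D.m + 1)) ^ 2 + ((D.lam * D.γ : ℝ) : ℂ) ^ 2)

/-- `H` -/
noncomputable def H (s : ℂ) : ℂ := D.E s * D.Λ' (D.zz s)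

lemma lam_pos' : 0 < D.lam := lam_pos D.m

lemma lam_ne : (D.lam : ℂ) ≠ 0 := by exact_mod_cast D.lam_pos'.ne'

lemma kk_ne : D.kk ≠ 0 := by
  unfold kk
  have := D.lam_pos'
  have h2 := D.hγ
  have h3 := D.hc₁
  positivity

lemma zz_sub (s : ℂ) : D.zz s - (D.m + 1) = (D.lam : ℂ) * (s - 1 / 2) := by
  unfold zz lam lamOf
  push_cast
  ring

lemma den_eq (s : ℂ) : (D.zz s - (D.m + 1)) ^ 2 + ((D.lam * D.γ : ℝ) : ℂ) ^ 2 =
    (D.lam : ℂ) ^ 2 * D.dd s := by
  rw [D.zz_sub]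
  unfold dd
  push_cast
  ring

lemma Λ'_eq (s : ℂ) : D.Λ' (D.zz s) = D.Λ (D.zz s) - (D.kk : ℂ) / D.dd s := by
  unfold Λ'
  rw [D.den_eq]
  have h := D.lam_ne
  congr 1
  unfold kk
  push_cast
  rw [div_div]

lemma H_eq_FF (s : ℂ) : D.H s = FF D.m D.c D.Λ' s := by
  unfold H FF E zz lam
  ring

lemma N_eq (s : ℂ) : D.N s = D.Y s * (D.dd s * D.Λ (D.zz s) - D.kk) := by
  unfold N
  rw [D.hZY s]
  unfold dd
  ring

lemma G_eq (s : ℂ) : D.G s = D.E s * D.Y s * (D.dd s * D.Λ (D.zz s) - D.kk) := by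
  unfold G
  rw [D.N_eq]
  ring

lemma G_eq_H {s : ℂ} (hd : D.dd s ≠ 0) : D.G s = D.Z s * D.H s := by
  unfold H
  rw [D.G_eq, D.Λ'_eq]
  have h1 : D.Z s = D.dd s * D.Y s := D.hZY s
  rw [h1]
  field_simp

lemma E_diff : Differentiable ℂ D.E := by
  unfold E
  have h1 : Differentiable ℂ D.zz := by unfold zz; fun_prop
  have h2 : Differentiable ℂ (fun z : ℂ => (Complex.Gamma z)⁻¹) :=
    Complex.differentiable_one_div_Gamma
  have h5 : Differentiable ℂ (fun s : ℂ => Complex.exp ((Real.log D.c : ℂ) *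
    (D.zz s - 2 * D.m - 1))) := by
    have := h1
    fun_prop
  exact h5.mul (h2.comp h1)

lemma zz_diff : Differentiable ℂ D.zz := by unfold zz; fun_prop

lemma G_diff : Differentiable ℂ D.G := by
  unfold G N
  have h1 := D.E_diff
  have h2 := D.hΛd.comp D.zz_diff
  have h3 := D.hZd
  have h4 := D.hYd
  exact h1.mul ((h3.mul h2).sub (h4.const_mul _))

lemma dd_ne {s : ℂ} (hs : 1 / 2 < s.re) : D.dd s ≠ 0 := by
  intro h
  have h1 : D.dd s = ((s - 1 / 2) - D.γ * Complex.I) * ((s - 1 / 2) + D.γ * Complex.I) := by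
    unfold dd
    linear_combination ((D.γ : ℂ) ^ 2) * Complex.I_sq
  rw [h1] at h
  rcases mul_eq_zero.1 h with h | h
  · have := congrArg Complex.re h
    simp at this
    norm_num at this
    linarith
  · have := congrArg Complex.re h
    simp at this
    norm_num at this
    linarith

lemma H_analytic : AnalyticOnNhd ℂ D.H {s : ℂ | 1 / 2 < s.re} := by
  have ho : IsOpen {s : ℂ | 1 / 2 < s.re} := isOpen_lt continuous_const Complex.continuous_re
  have hd : DifferentiableOn ℂ D.H {s : ℂ | 1 / 2 < s.re} := by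
    intro s hs
    have h0 : D.dd s ≠ 0 := D.dd_ne hs
    have h1 : DifferentiableAt ℂ (fun s : ℂ => D.E s * (D.Λ (D.zz s) - (D.kk : ℂ) / D.dd s)) s := by
      have a1 := D.E_diff s
      have a2 := (D.hΛd.comp D.zz_diff) s
      have a3 : DifferentiableAt ℂ D.dd s := by unfold dd; fun_prop
      exact a1.mul (a2.sub ((differentiableAt_const _).div a3 h0))
    have h2 : D.H = fun s : ℂ => D.E s * (D.Λ (D.zz s) - (D.kk : ℂ) / D.dd s) := by
      funext s
      unfold H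
      rw [D.Λ'_eq]
    rw [h2]
    exact h1.differentiableWithinAt
  exact hd.analyticOnNhd ho

lemma kap_lt : kap D.m < 1 := by
  have h := lam_kap D.m
  have hl := lam_pos D.m
  have h3 : lamOf D.m = 2 * D.m + 2 - 1 / 3 := rfl
  by_contra h1
  push Not at h1
  nlinarith

lemma kap_ge : 1 / 2 ≤ kap D.m := by
  unfold kap
  have hl := lam_pos D.m
  have : (0 : ℝ) ≤ D.m / lamOf D.m := by positivity
  linarith

/-- absolute convergence beyond `Re s = 1` -/
lemma summable_ff {s : ℂ} (hs : kap D.m ≤ s.re) : LSeriesSummable (ff D.m D.β) s := by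
  unfold LSeriesSummable
  apply Summable.of_norm_bounded D.hsum
  intro n
  rcases Nat.eq_zero_or_pos n with h | h
  · subst h; simp [LSeries.term_zero]
  · have hn : (0 : ℝ) < n := by exact_mod_cast h
    have hn1 : (1 : ℝ) ≤ n := by exact_mod_cast h
    rw [LSeries.term_of_ne_zero h.ne', norm_div, Complex.norm_natCast_cpow_of_pos h]
    unfold ff
    rw [Complex.norm_real, Real.norm_eq_abs, fr_eq D.hα h, abs_mul,
      abs_of_pos (Real.rpow_pos_of_pos hn _), mul_div_assoc]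
    apply mul_le_of_le_one_right (abs_nonneg _)
    rw [div_le_one (Real.rpow_pos_of_pos hn _)]
    exact Real.rpow_le_rpow_of_exponent_le hn1 hs

lemma H_series {s : ℂ} (hs : kap D.m < s.re) : D.H s = LSeries (ff D.m D.β) s := by
  have hU : IsPreconnected {z : ℂ | kap D.m < z.re} := (convex_halfSpace_re_gt _).isPreconnected
  have hab : LSeries.abscissaOfAbsConv (ff D.m D.β) ≤ (kap D.m : ℝ) := by
    have := (D.summable_ff (s := (kap D.m : ℂ)) (by simp)).abscissaOfAbsConv_le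
    simpa using this
  have h1 : AnalyticOnNhd ℂ D.H {z : ℂ | kap D.m < z.re} :=
    D.H_analytic.mono fun z hz => by
      have := D.kap_ge
      have hz : kap D.m < z.re := hz
      show 1 / 2 < z.re
      linarith
  have h2 : AnalyticOnNhd ℂ (LSeries (ff D.m D.β)) {z : ℂ | kap D.m < z.re} := by
    apply (LSeries_analyticOnNhd (ff D.m D.β)).mono
    intro z hz
    refine lt_of_le_of_lt hab ?_
    exact_mod_cast hz
  have h3 : D.H =ᶠ[nhds (3 : ℂ)] LSeries (ff D.m D.β) := by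
    have ho : IsOpen {z : ℂ | 2 < z.re} := isOpen_lt continuous_const Complex.continuous_re
    have hm : (3 : ℂ) ∈ {z : ℂ | 2 < z.re} := by
      change (2 : ℝ) < (3 : ℂ).re
      norm_num
    filter_upwards [ho.mem_nhds hm] with z hz
    rw [D.H_eq_FF]
    apply FF_series D.hc D.hα
    apply D.hΛs
    have hz : 2 < z.re := hz
    have hm0 : (0 : ℝ) ≤ D.m := Nat.cast_nonneg _
    have h1 : (((lamOf D.m : ℝ) : ℂ) * z + 1 / 6).re = lamOf D.m * z.re + 1 / 6 := by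
      simp
    rw [h1]
    have h2 : lamOf D.m * 2 ≤ lamOf D.m * z.re := by
      apply mul_le_mul_of_nonneg_left hz.le (lam_pos D.m).le
    have h3 : lamOf D.m = 2 * D.m + 2 - 1 / 3 := rfl
    nlinarith
  have h4 := h1.eqOn_of_preconnected_of_eventuallyEq h2 hU (z₀ := (3 : ℂ)) (by
    change kap D.m < (3 : ℂ).re
    have := D.kap_lt
    norm_num
    linarith) h3
  exact h4 hs

lemma F_series {s : ℂ} (hs : 1 < s.re) : D.F s = LSeries (aa D.m D.β) s := by
  have hs1 : s ≠ 1 := by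
    intro h
    rw [h] at hs
    simp at hs
  have hs2 : s - 1 ≠ 0 := sub_ne_zero.2 hs1
  rw [LSeries_aa D.hβ hs, ← D.H_series (by linarith [D.kap_lt])]
  unfold F
  rw [D.G_eq_H (D.dd_ne (by linarith)), D.hZ s hs1]
  field_simp

lemma G_one : D.G 1 = LSeries (ff D.m D.β) 1 := by
  rw [D.G_eq_H (D.dd_ne (by norm_num)), D.hZ1, one_mul]
  exact D.H_series (by simpa using D.kap_lt)

/-- `H(1) ≠ 0` -/
lemma H_one_ne : LSeries (ff D.m D.β) 1 ≠ 0 := by
  have hsum := D.summable_ff (s := 1) (by simpa using D.kap_lt.le)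
  set g : ℕ → ℂ := LSeries.term (ff D.m D.β) 1 with hg
  have hg0 : g 0 = 0 := by rw [hg]; exact LSeries.term_zero _ _
  have hg1 : g 1 = 1 := by
    rw [hg, LSeries.term_of_ne_zero one_ne_zero]
    simp [ff_one]
  have hgm : ∀ {a b : ℕ}, Nat.Coprime a b → g (a * b) = g a * g b := by
    intro a b hab
    rcases Nat.eq_zero_or_pos a with ha | ha
    · subst ha; rw [zero_mul, hg0, zero_mul]
    rcases Nat.eq_zero_or_pos b with hb | hb
    · subst hb; rw [mul_zero, hg0, mul_zero]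
    rw [hg, LSeries.term_of_ne_zero (Nat.mul_pos ha hb).ne', LSeries.term_of_ne_zero ha.ne',
      LSeries.term_of_ne_zero hb.ne']
    unfold ff
    rw [fr_mul hab]
    push_cast
    rw [Complex.natCast_mul_natCast_cpow]
    ring
  have hE := EulerProduct.eulerProduct_hasProd hg1 hgm (by exact hsum.norm) hg0
  have hL : (∑' n, g n) = LSeries (ff D.m D.β) 1 := rfl
  rw [hL] at hE
  have hloc : ∀ p : Nat.Primes, (∑' e : ℕ, g ((p : ℕ) ^ e)) = 1 + g p := by
    intro p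
    have hp := p.2
    rw [tsum_eq_sum (s := Finset.range 2)]
    · rw [Finset.sum_range_succ, Finset.sum_range_one, pow_zero, pow_one, hg1]
    · intro e he
      rw [Finset.mem_range, not_lt] at he
      rw [hg, LSeries.term_of_ne_zero (pow_ne_zero _ hp.ne_zero)]
      unfold ff
      rw [fr_prime_pow hp he]
      simp
  have hsp : Summable fun p : Nat.Primes => g p := hsum.comp_injective (i := fun p : Nat.Primes => (p : ℕ)) Subtype.val_injective
  have hnl : ∀ p : Nat.Primes, ‖g p‖ < 1 := by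
    intro p
    have hp := p.2
    rw [hg, LSeries.term_of_ne_zero hp.ne_zero, norm_div, Complex.cpow_one, Complex.norm_natCast]
    have h1 := norm_ff_le D.hβ (p : ℕ)
    have h2 : (1 : ℝ) < (p : ℕ) := by exact_mod_cast hp.one_lt
    rw [div_lt_one (by linarith)]
    linarith
  have hne : ∀ p : Nat.Primes, 1 + g p ≠ 0 := by
    intro p h0
    have h1 := hnl p
    have : g p = -1 := by linear_combination h0
    rw [this, norm_neg, norm_one] at h1
    exact lt_irrefl _ h1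
  have hlog := Complex.summable_log_one_add_of_summable hsp
  have h1 := Complex.cexp_tsum_eq_tprod hne hlog
  have h2 := hE.tprod_eq
  rw [← h2]
  have h3 : (∏' p : Nat.Primes, ∑' e : ℕ, g ((p : ℕ) ^ e)) = ∏' p : Nat.Primes, (1 + g p) :=
    tprod_congr hloc
  rw [h3, ← h1]
  exact Complex.exp_ne_zero _

lemma G_one_ne : D.G 1 ≠ 0 := by
  rw [D.G_one]
  exact D.H_one_ne

end Dat

end Pool.Agent.H902R3.PZ
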