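import Pool.Agent.H902R3.PZ.W2
import Pool.Agent.H144R3.Task469F

set_option autoImplicit false

/-!
# Wrapper, part 3: growth, functional equation, poles
-/

namespace Pool.Agent.H902R3.PZ

open Finset Pool.Agent.H469R10.HO Pool.Agent.H902R3.I469 Filter Topology

/-- growth of order two -/
def Gr (f : ℂ → ℂ) : Prop := ∃ C : ℝ, 0 ≤ C ∧ ∀ s : ℂ, ‖f s‖ ≤ Real.exp (C * (1 + ‖s‖) ^ 2)

lemma Gr.of {f : ℂ → ℂ} (h : ∃ C : ℝ, ∀ s : ℂ, ‖f s‖ ≤ Real.exp (C * (1 + ‖s‖) ^ 2)) : Gr f := by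
  obtain ⟨C, hC⟩ := h
  refine ⟨|C|, abs_nonneg _, fun s => (hC s).trans (Real.exp_le_exp.2 ?_)⟩
  exact mul_le_mul_of_nonneg_right (le_abs_self C) (by positivity)

lemma Gr.mul {f g : ℂ → ℂ} (hf : Gr f) (hg : Gr g) : Gr (fun s => f s * g s) := by
  obtain ⟨C, hC, h⟩ := hf
  obtain ⟨C', hC', h'⟩ := hg
  refine ⟨C + C', by positivity, fun s => ?_⟩
  rw [norm_mul, add_mul, Real.exp_add]
  exact mul_le_mul (h s) (h' s) (norm_nonneg _) (Real.exp_pos _).le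

lemma Gr.const (a : ℂ) : Gr (fun _ => a) := by
  refine ⟨‖a‖, norm_nonneg _, fun s => ?_⟩
  have h1 : ‖a‖ ≤ Real.exp ‖a‖ := by linarith [Real.add_one_le_exp ‖a‖]
  refine h1.trans (Real.exp_le_exp.2 ?_)
  have h2 : (1 : ℝ) ≤ (1 + ‖s‖) ^ 2 := by
    have := norm_nonneg s
    nlinarith
  exact le_mul_of_one_le_right (norm_nonneg _) h2

lemma Gr.sub {f g : ℂ → ℂ} (hf : Gr f) (hg : Gr g) : Gr (fun s => f s - g s) := by
  obtain ⟨C, hC, h⟩ := hf
  obtain ⟨C', hC', h'⟩ := hg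
  refine ⟨C + C' + 1, by positivity, fun s => ?_⟩
  have h2 : (1 : ℝ) ≤ (1 + ‖s‖) ^ 2 := by
    have := norm_nonneg s
    nlinarith
  set X := (1 + ‖s‖) ^ 2 with hX
  have a1 : Real.exp (C * X) ≤ Real.exp ((C + C') * X) := Real.exp_le_exp.2 (by nlinarith)
  have a2 : Real.exp (C' * X) ≤ Real.exp ((C + C') * X) := Real.exp_le_exp.2 (by nlinarith)
  have a3 : 2 ≤ Real.exp X := by linarith [Real.add_one_le_exp X]
  calc ‖f s - g s‖ ≤ ‖f s‖ + ‖g s‖ := norm_sub_le _ _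
    _ ≤ Real.exp ((C + C') * X) + Real.exp ((C + C') * X) := add_le_add ((h s).trans a1) ((h' s).trans a2)
    _ = Real.exp ((C + C') * X) * 2 := by ring
    _ ≤ Real.exp ((C + C') * X) * Real.exp X := by gcongr
    _ = _ := by rw [← Real.exp_add]; congr 1; ring

lemma Gr.comp_affine {f : ℂ → ℂ} (hf : Gr f) (a b : ℂ) : Gr (fun s => f (a * s + b)) := by
  obtain ⟨C, hC, h⟩ := hf
  refine ⟨C * (1 + ‖a‖ + ‖b‖) ^ 2, by positivity, fun s => (h _).trans (Real.exp_le_exp.2 ?_)⟩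
  rw [mul_assoc, ← mul_pow]
  apply mul_le_mul_of_nonneg_left _ hC
  apply pow_le_pow_left₀ (by positivity)
  have h1 : ‖a * s + b‖ ≤ ‖a‖ * ‖s‖ + ‖b‖ := (norm_add_le _ _).trans (by rw [norm_mul])
  have := norm_nonneg a
  have := norm_nonneg b
  have := norm_nonneg s
  nlinarith [mul_nonneg (norm_nonneg b) (norm_nonneg s)]

lemma Gr.exp_affine (a b : ℂ) : Gr (fun s => Complex.exp (a * s + b)) := by
  refine ⟨‖a‖ + ‖b‖, by positivity, fun s => ?_⟩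
  rw [Complex.norm_exp]
  apply Real.exp_le_exp.2
  have h1 : (a * s + b).re ≤ ‖a‖ * ‖s‖ + ‖b‖ :=
    (Complex.re_le_norm _).trans ((norm_add_le _ _).trans (by rw [norm_mul]))
  have := norm_nonneg a
  have := norm_nonneg b
  have := norm_nonneg s
  have h2 : (1 : ℝ) ≤ (1 + ‖s‖) ^ 2 := by nlinarith
  have h3 : ‖s‖ ≤ (1 + ‖s‖) ^ 2 := by nlinarith
  nlinarith [mul_le_mul_of_nonneg_left h3 (norm_nonneg a), mul_le_mul_of_nonneg_left h2 (norm_nonneg b)]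

lemma Gr.inv_Gamma : Gr (fun z => (Complex.Gamma z)⁻¹) := by
  refine ⟨2, by norm_num, fun z => ?_⟩
  refine (Pool.Agent.H144R3.T469F.norm_inv_Gamma_le z).trans ?_
  have hz := norm_nonneg z
  have h1 : ‖z‖ ≤ Real.exp ‖z‖ := by linarith [Real.add_one_le_exp ‖z‖]
  calc ‖z‖ * Real.exp (‖z‖ + ‖z‖ ^ 2) ≤ Real.exp ‖z‖ * Real.exp (‖z‖ + ‖z‖ ^ 2) := by gcongr
    _ = Real.exp (‖z‖ + (‖z‖ + ‖z‖ ^ 2)) := by rw [← Real.exp_add]
    _ ≤ _ := Real.exp_le_exp.2 (by nlinarith)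

lemma Gr.order {f : ℂ → ℂ} (hf : Gr f) : ∃ ρ C : ℝ, ∀ s : ℂ, ‖f s‖ ≤ C * Real.exp (‖s‖ ^ ρ) := by
  obtain ⟨C, hC, h⟩ := hf
  obtain ⟨K, hK⟩ := growth_aux C
  refine ⟨3, Real.exp K, fun s => (h s).trans ?_⟩
  calc Real.exp (C * (1 + ‖s‖) ^ 2) ≤ Real.exp (‖s‖ ^ 3 + K) := Real.exp_le_exp.2 (hK _ (norm_nonneg _))
    _ = Real.exp K * Real.exp (‖s‖ ^ (3 : ℝ)) := by
        rw [Real.exp_add, mul_comm]
        congr 2
        rw [← Real.rpow_natCast]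
        norm_num

namespace Dat

variable (D : Dat)

lemma G_gr : Gr D.G := by
  have h1 : Gr (fun s => Complex.exp ((Real.log D.c : ℂ) * D.lam * s +
      (Real.log D.c : ℂ) * (1 / 6 - 2 * D.m - 1))) := Gr.exp_affine _ _
  have h2 : Gr (fun s => (Complex.Gamma ((D.lam : ℂ) * s + 1 / 6))⁻¹) := Gr.inv_Gamma.comp_affine _ _
  have h3 : Gr (fun s => D.Λ ((D.lam : ℂ) * s + 1 / 6)) := (Gr.of D.hΛg).comp_affine _ _
  have h4 : Gr D.Z := Gr.of D.hZg
  have h5 : Gr D.Y := Gr.of D.hYg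
  have h6 := (h1.mul h2).mul ((h4.mul h3).sub ((Gr.const (D.kk : ℂ)).mul h5))
  convert h6 using 1
  funext s
  unfold G E N zz
  congr 3
  congr 1
  ring

lemma G_order : ∃ ρ C : ℝ, ∀ s : ℂ, ‖D.G s‖ ≤ C * Real.exp (‖s‖ ^ ρ) := D.G_gr.order

lemma Z_conj (s : ℂ) : D.Z (starRingEnd ℂ s) = starRingEnd ℂ (D.Z s) := by
  by_cases h : s = 1
  · subst h; rw [map_one, D.hZ1, map_one]
  · have h' : starRingEnd ℂ s ≠ 1 := by
      intro h1
      apply h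
      have := congrArg (starRingEnd ℂ) h1
      rwa [Complex.conj_conj, map_one] at this
    rw [D.hZ _ h', D.hZ _ h, riemannZeta_conj, map_mul, map_sub, map_one]

lemma dd_conj (s : ℂ) : D.dd (starRingEnd ℂ s) = starRingEnd ℂ (D.dd s) := by
  unfold dd
  rw [map_add, map_pow, map_pow, map_sub, Complex.conj_ofReal, map_div₀, map_one, Complex.conj_ofNat]

lemma zz_conj (s : ℂ) : D.zz (starRingEnd ℂ s) = starRingEnd ℂ (D.zz s) := by
  unfold zz
  rw [map_add, map_mul, Complex.conj_ofReal, map_div₀, map_one, Complex.conj_ofNat]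

lemma E_conj (s : ℂ) : D.E (starRingEnd ℂ s) = starRingEnd ℂ (D.E s) := by
  unfold E
  rw [D.zz_conj, map_mul, ← Complex.exp_conj, map_inv₀, ← Complex.Gamma_conj, map_mul,
    Complex.conj_ofReal, map_sub, map_sub, map_mul, map_one, Complex.conj_ofNat, Complex.conj_natCast]

/-- the set where `dd ≠ 0` -/
lemma dd_eventually (s : ℂ) : ∀ᶠ z in 𝓝[≠] s, D.dd z ≠ 0 := by
  have ha : AnalyticAt ℂ D.dd s := by
    have : Differentiable ℂ D.dd := by unfold dd; fun_prop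
    exact this.analyticAt s
  rcases ha.eventually_eq_zero_or_eventually_ne_zero with h | h
  · exfalso
    have hd : Differentiable ℂ D.dd := by unfold dd; fun_prop
    have h1 : AnalyticOnNhd ℂ D.dd Set.univ := fun z _ => hd.analyticAt z
    have h2 := h1.eqOn_zero_of_preconnected_of_eventuallyEq_zero isPreconnected_univ (Set.mem_univ s) h
    have h3 := h2 (Set.mem_univ (1 : ℂ))
    exact D.dd_ne (s := 1) (by norm_num) h3
  · exact h

lemma Y_conj (s : ℂ) : D.Y (starRingEnd ℂ s) = starRingEnd ℂ (D.Y s) := by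
  have hc1 : Continuous fun s : ℂ => D.Y (starRingEnd ℂ s) := D.hYd.continuous.comp Complex.continuous_conj
  have hc2 : Continuous fun s : ℂ => starRingEnd ℂ (D.Y s) := Complex.continuous_conj.comp D.hYd.continuous
  have h1 : Tendsto (fun s : ℂ => D.Y (starRingEnd ℂ s)) (𝓝[≠] s) (𝓝 (D.Y (starRingEnd ℂ s))) :=
    (hc1.tendsto s).mono_left nhdsWithin_le_nhds
  have h2 : Tendsto (fun s : ℂ => starRingEnd ℂ (D.Y s)) (𝓝[≠] s) (𝓝 (starRingEnd ℂ (D.Y s))) :=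
    (hc2.tendsto s).mono_left nhdsWithin_le_nhds
  refine tendsto_nhds_unique_of_eventuallyEq h1 h2 ?_
  filter_upwards [D.dd_eventually s] with z hz
  have h3 := D.Z_conj z
  rw [D.hZY, D.hZY] at h3
  change D.dd (starRingEnd ℂ z) * D.Y (starRingEnd ℂ z) = starRingEnd ℂ (D.dd z * D.Y z) at h3
  rw [D.dd_conj, map_mul] at h3
  exact mul_left_cancel₀ (by simpa using hz) h3

lemma F_conj (s : ℂ) : D.F (starRingEnd ℂ s) = starRingEnd ℂ (D.F s) := by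
  unfold F G N
  rw [D.E_conj, D.Z_conj, D.Y_conj, D.zz_conj, D.hΛc]
  simp only [map_div₀, map_mul, map_sub, map_one, Complex.conj_ofReal]

/-- the symmetric function with the two zeros removed -/
noncomputable def X (s : ℂ) : ℂ := Complex.Gammaℝ s * D.Y s / (s - 1)

lemma X_eq {s : ℂ} (hs0 : s ≠ 0) (hs1 : s ≠ 1) (hg : Complex.Gammaℝ s ≠ 0) (hd : D.dd s ≠ 0) :
    D.X s = completedRiemannZeta s / D.dd s := by
  have h1 := riemannZeta_def_of_ne_zero hs0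
  have h2 := D.hZ s hs1
  rw [D.hZY s] at h2
  change D.dd s * D.Y s = _ at h2
  have h3 : s - 1 ≠ 0 := sub_ne_zero.2 hs1
  have h4 : D.Y s = (s - 1) * riemannZeta s / D.dd s := by
    rw [← h2]; field_simp
  unfold X
  rw [h4, h1]
  field_simp

lemma dd_one_sub (s : ℂ) : D.dd (1 - s) = D.dd s := by
  unfold dd; ring

lemma gr_ne {s : ℂ} (h : ∀ n : ℕ, (1 / 2 : ℂ) * s ≠ -(n : ℂ)) : Complex.Gammaℝ s ≠ 0 := by
  rw [Ne, Complex.Gammaℝ_eq_zero_iff]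
  rintro ⟨n, hn⟩
  exact h n (by rw [hn]; ring)

lemma gr_cont {s : ℂ} (h : ∀ n : ℕ, (1 / 2 : ℂ) * s ≠ -(n : ℂ)) : ContinuousAt Complex.Gammaℝ s := by
  have h1 : DifferentiableAt ℂ (fun s : ℂ => Complex.Gamma (s / 2)) s := by
    have : DifferentiableAt ℂ Complex.Gamma (s / 2) :=
      Complex.differentiableAt_Gamma _ fun n hn => h n (by rw [← hn]; ring)
    exact this.comp s (by fun_prop)
  have h2 : ContinuousAt (fun s : ℂ => (Real.pi : ℂ) ^ (-s / 2)) s := by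
    apply ContinuousAt.const_cpow
    · fun_prop
    · left; exact_mod_cast Real.pi_ne_zero
  have : Complex.Gammaℝ = fun s : ℂ => (Real.pi : ℂ) ^ (-s / 2) * Complex.Gamma (s / 2) := by
    funext s; exact Complex.Gammaℝ_def s
  rw [this]
  exact h2.mul h1.continuousAt

lemma X_cont {s : ℂ} (hs1 : s ≠ 1) (h : ∀ n : ℕ, (1 / 2 : ℂ) * s ≠ -(n : ℂ)) : ContinuousAt D.X s := by
  unfold X
  have h1 := gr_cont h
  have h2 := D.hYd.continuous.continuousAt (x := s)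
  exact (h1.mul h2).div (by fun_prop) (sub_ne_zero.2 hs1)

lemma half_open {s : ℂ} (h : ∀ n : ℕ, (1 / 2 : ℂ) * s ≠ -(n : ℂ)) :
    ∀ᶠ z in 𝓝 s, Complex.Gammaℝ z ≠ 0 :=
  (gr_cont h).eventually_ne (gr_ne h)

lemma X_one_sub {s : ℂ} (hs0 : s ≠ 0) (hs1 : s ≠ 1) (h1 : ∀ n : ℕ, (1 / 2 : ℂ) * s ≠ -(n : ℂ))
    (h2 : ∀ n : ℕ, (1 / 2 : ℂ) * (1 - s) ≠ -(n : ℂ)) : D.X (1 - s) = D.X s := by
  have hc1 : ContinuousAt D.X s := D.X_cont hs1 h1
  have hs0' : 1 - s ≠ 1 := by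
    intro h; apply hs0; linear_combination -h
  have hsub : ContinuousAt (fun z : ℂ => 1 - z) s := by fun_prop
  have hc2 : ContinuousAt (fun z => D.X (1 - z)) s :=
    ContinuousAt.comp (g := D.X) (D.X_cont hs0' h2) hsub
  have t1 : Tendsto D.X (𝓝[≠] s) (𝓝 (D.X s)) := hc1.tendsto.mono_left nhdsWithin_le_nhds
  have t2 : Tendsto (fun z => D.X (1 - z)) (𝓝[≠] s) (𝓝 (D.X (1 - s))) := hc2.tendsto.mono_left nhdsWithin_le_nhds
  refine tendsto_nhds_unique_of_eventuallyEq t2 t1 ?_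
  have e1 : ∀ᶠ z in 𝓝[≠] s, Complex.Gammaℝ z ≠ 0 := (half_open h1).filter_mono nhdsWithin_le_nhds
  have e2 : ∀ᶠ z in 𝓝[≠] s, Complex.Gammaℝ (1 - z) ≠ 0 :=
    (hsub.eventually (half_open h2)).filter_mono nhdsWithin_le_nhds
  have e3 : ∀ᶠ z in 𝓝[≠] s, z ≠ 0 := nhdsWithin_le_nhds (isOpen_ne.mem_nhds hs0)
  have e4 : ∀ᶠ z in 𝓝[≠] s, z ≠ 1 := nhdsWithin_le_nhds (isOpen_ne.mem_nhds hs1)
  filter_upwards [e1, e2, e3, e4, D.dd_eventually s] with z z1 z2 z3 z4 z5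
  have z3' : 1 - z ≠ 1 := by intro h; apply z3; linear_combination -h
  have z4' : 1 - z ≠ 0 := by intro h; apply z4; linear_combination -h
  rw [D.X_eq z4' z3' z2 (by rwa [D.dd_one_sub]), D.X_eq z3 z4 z1 z5, completedRiemannZeta_one_sub,
    D.dd_one_sub]

/-- conductor -/
noncomputable def Q : ℝ := Real.exp (-(1 / 2 * Real.log Real.pi + D.lam * Real.log D.c))

lemma Q_pos : 0 < D.Q := Real.exp_pos _

lemma Q_pow (s : ℂ) : ((D.Q : ℝ) : ℂ) ^ s =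
    Complex.exp (-((1 / 2 : ℂ) * Real.log Real.pi + D.lam * Real.log D.c) * s) := by
  unfold Q
  rw [pow_eq_exp (Real.exp_pos _), Real.log_exp]
  push_cast
  ring_nf

lemma completed {s : ℂ} (h2 : ∀ n : ℕ, (D.lam : ℂ) * s + 1 / 6 ≠ -(n : ℂ)) :
    D.F s * ((D.Q : ℝ) : ℂ) ^ s * (Complex.Gamma (1 / 2 * s) * Complex.Gamma ((D.lam : ℂ) * s + 1 / 6)) =
      Complex.exp ((Real.log D.c : ℂ) * (1 / 6 - 2 * D.m - 1)) * (D.X s * (D.dd s * D.Λ (D.zz s) - D.kk)) := by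
  have hG := Complex.Gamma_ne_zero h2
  unfold F
  rw [D.G_eq, D.Q_pow]
  unfold X E
  rw [Complex.Gammaℝ_def]
  have hpi : (Real.pi : ℂ) ^ (-s / 2) = Complex.exp (-((1 / 2 : ℂ) * Real.log Real.pi) * s) := by
    rw [pow_eq_exp Real.pi_pos]
    congr 1
    ring
  have hs2 : s / 2 = 1 / 2 * s := by ring
  have h1 : D.zz s = (D.lam : ℂ) * s + 1 / 6 := rfl
  have h3 : Complex.exp (-((1 / 2 : ℂ) * Real.log Real.pi + D.lam * Real.log D.c) * s) =
      Complex.exp (-((1 / 2 : ℂ) * Real.log Real.pi) * s) * Complex.exp (-(D.lam * Real.log D.c) * s) := by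
    rw [← Complex.exp_add]; congr 1; ring
  have h4 : Complex.exp ((Real.log D.c : ℂ) * ((D.lam : ℂ) * s + 1 / 6 - 2 * D.m - 1)) =
      Complex.exp ((Real.log D.c : ℂ) * (1 / 6 - 2 * D.m - 1)) * Complex.exp ((D.lam * Real.log D.c) * s) := by
    rw [← Complex.exp_add]; congr 1; ring
  have h5 : Complex.exp ((D.lam * Real.log D.c) * s) * Complex.exp (-(D.lam * Real.log D.c) * s) = 1 := by
    rw [← Complex.exp_add]
    have : (D.lam * Real.log D.c : ℂ) * s + -(D.lam * Real.log D.c) * s = 0 := by ring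
    rw [this, Complex.exp_zero]
  rw [hpi, hs2, h1, h3, h4]
  have h6 := inv_mul_cancel₀ hG
  generalize Complex.Gamma ((D.lam : ℂ) * s + 1 / 6) = g at *
  generalize Complex.exp ((D.lam * Real.log D.c : ℂ) * s) = e1 at *
  generalize Complex.exp (-(D.lam * Real.log D.c : ℂ) * s) = e2 at *
  generalize Complex.exp ((Real.log D.c : ℂ) * (1 / 6 - 2 * D.m - 1)) = e3 at *
  generalize Complex.exp (-((1 / 2 : ℂ) * Real.log Real.pi) * s) = e4 at *
  generalize Complex.Gamma (1 / 2 * s) = g2 at *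
  calc e3 * e1 * g⁻¹ * D.Y s * (D.dd s * D.Λ ((D.lam : ℂ) * s + 1 / 6) - D.kk) / (s - 1) * (e4 * e2) * (g2 * g)
      = e3 * (e1 * e2) * (g⁻¹ * g) * (D.Y s * (D.dd s * D.Λ ((D.lam : ℂ) * s + 1 / 6) - D.kk) / (s - 1)) * (e4 * g2) := by ring
    _ = _ := by rw [h5, h6]; ring

lemma zz_one_sub (s : ℂ) : D.zz (1 - s) = 2 * D.m + 2 - D.zz s := by
  unfold zz lam lamOf
  push_cast
  ring

theorem FE {s : ℂ} (hs0 : s ≠ 0) (hs1 : s ≠ 1) (h1 : ∀ n : ℕ, (1 / 2 : ℂ) * s ≠ -(n : ℂ))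
    (h2 : ∀ n : ℕ, (D.lam : ℂ) * s + 1 / 6 ≠ -(n : ℂ))
    (h3 : ∀ n : ℕ, (1 / 2 : ℂ) * (1 - s) ≠ -(n : ℂ))
    (h4 : ∀ n : ℕ, (D.lam : ℂ) * (1 - s) + 1 / 6 ≠ -(n : ℂ)) :
    D.F s * ((D.Q : ℝ) : ℂ) ^ s * (Complex.Gamma (1 / 2 * s) * Complex.Gamma ((D.lam : ℂ) * s + 1 / 6)) =
      D.F (1 - s) * ((D.Q : ℝ) : ℂ) ^ (1 - s) *
        (Complex.Gamma (1 / 2 * (1 - s)) * Complex.Gamma ((D.lam : ℂ) * (1 - s) + 1 / 6)) := by
  rw [D.completed h2, D.completed h4, D.X_one_sub hs0 hs1 h1 h3, D.dd_one_sub, D.zz_one_sub, D.hΛfe]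

theorem FE' {s : ℂ} (hs0 : s ≠ 0) (hs1 : s ≠ 1) (h1 : ∀ n : ℕ, (1 / 2 : ℂ) * s ≠ -(n : ℂ))
    (h2 : ∀ n : ℕ, (D.lam : ℂ) * s + 1 / 6 ≠ -(n : ℂ))
    (h3 : ∀ n : ℕ, (1 / 2 : ℂ) * (1 - starRingEnd ℂ s) ≠ -(n : ℂ))
    (h4 : ∀ n : ℕ, (D.lam : ℂ) * (1 - starRingEnd ℂ s) + 1 / 6 ≠ -(n : ℂ)) :
    D.F s * ((D.Q : ℝ) : ℂ) ^ s * (Complex.Gamma (1 / 2 * s) * Complex.Gamma ((D.lam : ℂ) * s + 1 / 6)) =
      starRingEnd ℂ (D.F (1 - starRingEnd ℂ s) * ((D.Q : ℝ) : ℂ) ^ (1 - starRingEnd ℂ s) *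
        (Complex.Gamma (1 / 2 * (1 - starRingEnd ℂ s)) *
          Complex.Gamma ((D.lam : ℂ) * (1 - starRingEnd ℂ s) + 1 / 6))) := by
  have c1 : (1 : ℂ) - starRingEnd ℂ s = starRingEnd ℂ (1 - s) := by rw [map_sub, map_one]
  have c2 : ∀ w : ℂ, (1 / 2 : ℂ) * starRingEnd ℂ w = starRingEnd ℂ (1 / 2 * w) := by
    intro w; rw [map_mul, map_div₀, map_one, Complex.conj_ofNat]
  have c3 : ∀ w : ℂ, (D.lam : ℂ) * starRingEnd ℂ w + 1 / 6 = starRingEnd ℂ ((D.lam : ℂ) * w + 1 / 6) := by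
    intro w; rw [map_add, map_mul, map_div₀, map_one, Complex.conj_ofNat, Complex.conj_ofReal]
  rw [c1] at h3 h4 ⊢
  have h3' : ∀ n : ℕ, (1 / 2 : ℂ) * (1 - s) ≠ -(n : ℂ) := by
    intro n hn
    apply h3 n
    rw [c2, hn, map_neg, Complex.conj_natCast]
  have h4' : ∀ n : ℕ, (D.lam : ℂ) * (1 - s) + 1 / 6 ≠ -(n : ℂ) := by
    intro n hn
    apply h4 n
    rw [c3, hn, map_neg, Complex.conj_natCast]
  rw [D.FE hs0 hs1 h1 h2 h3' h4', D.F_conj, c2, c3, Complex.Gamma_conj, Complex.Gamma_conj]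
  have c4 : ((D.Q : ℝ) : ℂ) ^ (starRingEnd ℂ (1 - s)) = starRingEnd ℂ (((D.Q : ℝ) : ℂ) ^ (1 - s)) := by
    rw [pow_eq_exp D.Q_pos, pow_eq_exp D.Q_pos, ← Complex.exp_conj, map_mul, Complex.conj_ofReal]
  rw [c4]
  simp only [map_mul, Complex.conj_conj]

/-- the zero -/
noncomputable def rho : ℂ := 1 / 2 + D.γ * Complex.I

lemma dd_rho : D.dd D.rho = 0 := by
  unfold dd rho
  linear_combination ((D.γ : ℂ) ^ 2) * Complex.I_sq

lemma E_rho_ne : D.E D.rho ≠ 0 := by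
  unfold E
  apply mul_ne_zero (Complex.exp_ne_zero _)
  apply inv_ne_zero
  apply Complex.Gamma_ne_zero_of_re_pos
  have h := D.lam_pos'
  unfold zz rho
  simp
  positivity

/-- the quotient as a meromorphic function -/
lemma G_eq' (s : ℂ) : D.dd s * D.G s = D.Z s * (D.E s * (D.dd s * D.Λ (D.zz s) - D.kk)) := by
  rw [D.G_eq, D.hZY s]
  unfold dd
  ring

lemma num_rho_ne : D.E D.rho * (D.dd D.rho * D.Λ (D.zz D.rho) - D.kk) ≠ 0 := by
  rw [D.dd_rho, zero_mul, zero_sub]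
  exact mul_ne_zero D.E_rho_ne (neg_ne_zero.2 (by exact_mod_cast D.kk_ne))

lemma num_diff : Differentiable ℂ fun s => D.E s * (D.dd s * D.Λ (D.zz s) - D.kk) := by
  have h1 := D.E_diff
  have h2 := D.hΛd.comp D.zz_diff
  have h3 : Differentiable ℂ D.dd := by unfold dd; fun_prop
  exact h1.mul ((h3.mul h2).sub (differentiable_const _))

theorem no_entire : ¬ ∃ L₁ : ℂ → ℂ, Differentiable ℂ L₁ ∧ ∀ s : ℂ, s ≠ 1 → D.F s = riemannZeta s * L₁ s := by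
  rintro ⟨L₁, hL, h⟩
  have hd : Differentiable ℂ D.dd := by unfold dd; fun_prop
  have key : (fun s => D.dd s * L₁ s) = fun s => D.E s * (D.dd s * D.Λ (D.zz s) - D.kk) := by
    have h1 : AnalyticOnNhd ℂ (fun s => D.dd s * L₁ s) Set.univ := fun z _ => (hd.mul hL).analyticAt z
    have h2 : AnalyticOnNhd ℂ (fun s => D.E s * (D.dd s * D.Λ (D.zz s) - D.kk)) Set.univ :=
      fun z _ => D.num_diff.analyticAt z
    refine h1.eq_of_eventuallyEq h2 (z₀ := (3 : ℂ)) ?_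
    have ho : IsOpen {z : ℂ | 2 < z.re} := isOpen_lt continuous_const Complex.continuous_re
    have hm : (3 : ℂ) ∈ {z : ℂ | 2 < z.re} := by
      change (2 : ℝ) < (3 : ℂ).re
      norm_num
    filter_upwards [ho.mem_nhds hm] with s hs
    have hs : 2 < s.re := hs
    have hs1 : s ≠ 1 := by
      intro h0; rw [h0] at hs; norm_num at hs
    have h3 := h s hs1
    have h4 : s - 1 ≠ 0 := sub_ne_zero.2 hs1
    have h5 : D.G s = D.Z s * L₁ s := by
      unfold F at h3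
      rw [D.hZ s hs1]
      rw [div_eq_iff h4] at h3
      rw [h3]; ring
    have h6 : D.Z s ≠ 0 := by
      rw [D.hZ s hs1]
      exact mul_ne_zero h4 (riemannZeta_ne_zero_of_one_lt_re (by linarith))
    have h7 := D.G_eq' s
    rw [h5] at h7
    apply mul_left_cancel₀ h6
    rw [← h7]; ring
  have h8 : D.dd D.rho * L₁ D.rho = D.E D.rho * (D.dd D.rho * D.Λ (D.zz D.rho) - D.kk) :=
    congrFun key D.rho
  rw [D.dd_rho, zero_mul] at h8
  have h9 := D.num_rho_ne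
  rw [D.dd_rho] at h9
  exact h9 h8.symm

theorem order_one : meromorphicOrderAt D.F 1 = ((-1 : ℤ) : WithTop ℤ) := by
  have hG := D.G_diff.analyticAt 1
  have hm : MeromorphicAt D.F 1 := by
    unfold F
    exact hG.meromorphicAt.div (by fun_prop)
  rw [meromorphicOrderAt_eq_int_iff hm]
  refine ⟨D.G, hG, D.G_one_ne, ?_⟩
  filter_upwards with z
  unfold F
  rw [zpow_neg, zpow_one, smul_eq_mul, div_eq_mul_inv, mul_comm]

lemma rho_ne_one : D.rho ≠ 1 := by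
  intro h
  have := congrArg Complex.re h
  unfold rho at this
  norm_num at this

lemma Z_eventually : ∀ᶠ z in 𝓝[≠] D.rho, D.Z z ≠ 0 := by
  rcases (D.hZd.analyticAt D.rho).eventually_eq_zero_or_eventually_ne_zero with h | h
  · exfalso
    have h1 : AnalyticOnNhd ℂ D.Z Set.univ := fun z _ => D.hZd.analyticAt z
    have h2 := h1.eqOn_zero_of_preconnected_of_eventuallyEq_zero isPreconnected_univ (Set.mem_univ _) h
    have h3 := h2 (Set.mem_univ (1 : ℂ))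
    rw [D.hZ1] at h3
    exact one_ne_zero h3
  · exact h

theorem order_rho : meromorphicOrderAt (fun s => D.F s / riemannZeta s) D.rho = ((-1 : ℤ) : WithTop ℤ) := by
  set ρ' : ℂ := 1 / 2 - D.γ * Complex.I with hρ'
  have hfac : ∀ s, D.dd s = (s - D.rho) * (s - ρ') := by
    intro s
    unfold dd rho
    rw [hρ']
    linear_combination ((D.γ : ℂ) ^ 2) * Complex.I_sq
  have hne : D.rho - ρ' ≠ 0 := by
    unfold rho
    rw [hρ']
    have : (1 / 2 + (D.γ : ℂ) * Complex.I) - (1 / 2 - (D.γ : ℂ) * Complex.I) = ((2 * D.γ : ℝ) : ℂ) * Complex.I := by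
      push_cast; ring
    rw [this]
    apply mul_ne_zero _ Complex.I_ne_zero
    have := D.hγ
    exact_mod_cast (by positivity : (2 * D.γ : ℝ) ≠ 0)
  set g : ℂ → ℂ := fun s => D.E s * (D.dd s * D.Λ (D.zz s) - D.kk) / (s - ρ') with hg
  have hga : AnalyticAt ℂ g D.rho := by
    rw [hg]
    exact (D.num_diff.analyticAt D.rho).div (by fun_prop) hne
  have hev : (fun s => D.F s / riemannZeta s) =ᶠ[𝓝[≠] D.rho] fun s => (s - D.rho) ^ (-1 : ℤ) • g s := by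
    have e4 : ∀ᶠ z in 𝓝[≠] D.rho, z ≠ 1 := nhdsWithin_le_nhds (isOpen_ne.mem_nhds D.rho_ne_one)
    filter_upwards [D.Z_eventually, e4, D.dd_eventually D.rho] with s hs hs1 hd
    have h1 : s - 1 ≠ 0 := sub_ne_zero.2 hs1
    have h2 := D.G_eq' s
    have h3 : D.F s / riemannZeta s = D.G s / D.Z s := by
      unfold F
      rw [D.hZ s hs1, div_div]
    rw [h3, hg]
    simp only
    rw [zpow_neg, zpow_one, smul_eq_mul]
    rw [hfac] at hd h2
    have hd1 : s - D.rho ≠ 0 := left_ne_zero_of_mul hd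
    have hd2 : s - ρ' ≠ 0 := right_ne_zero_of_mul hd
    rw [hfac, div_eq_iff hs]
    field_simp
    linear_combination h2
  rw [meromorphicOrderAt_congr hev]
  have hm : MeromorphicAt (fun s => (s - D.rho) ^ (-1 : ℤ) • g s) D.rho := by
    have h1 : MeromorphicAt (fun s => (s - D.rho) ^ (-1 : ℤ)) D.rho :=
      MeromorphicAt.zpow (by fun_prop) _
    exact h1.smul hga.meromorphicAt
  rw [meromorphicOrderAt_eq_int_iff hm]
  refine ⟨g, hga, ?_, ?_⟩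
  · rw [hg]
    simp only
    exact div_ne_zero D.num_rho_ne hne
  · filter_upwards with z
    rfl

lemma zeta_rho : riemannZeta D.rho = 0 := D.hz

end Dat

end Pool.Agent.H902R3.PZ
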